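import Mathlib

namespace Pool.Agent.H46.Hyp

open Configuration

/-- An arc: no three distinct points of `A` lie on a common line. -/
def IsArc (P L : Type) [Membership P L] (A : Finset P) : Prop :=
  ∀ l : L, ∀ a ∈ A, ∀ b ∈ A, ∀ c ∈ A, a ∈ l → b ∈ l → c ∈ l → a = b ∨ a = c ∨ b = c

/-- A hyperoval of a projective plane of order `q`: an arc with exactly `q + 2` points. -/
def IsHyperoval (P L : Type) [Membership P L] [ProjectivePlane P L] (H : Finset P) : Prop :=
  H.card = ProjectivePlane.order P L + 2 ∧ IsArc P L H

end Pool.Agent.H46.Hyp
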