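import Mathlib
import Pool.Agent.H46.Hyp.Defs

open Configuration Finset

namespace Pool.Agent.H46.Hyp

variable {P L : Type} [Membership P L] [ProjectivePlane P L] [Fintype P] [Fintype L]
  [DecidableEq P]

/-- each line through a point of a hyperoval contains another point of the hyperoval -/
lemma exists_other {H : Finset P} (hH : IsHyperoval P L H) {h : P} (hh : h ∈ H) {l : L}
    (hl : h ∈ l) : ∃ h' ∈ H, h' ≠ h ∧ h' ∈ l := by
  classical
  -- the map from `H \ {h}` to the lines through `h`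
  let φ : {x // x ∈ H.erase h} → {l : L // h ∈ l} := fun x =>
    ⟨HasLines.mkLine (show (x : P) ≠ h from (mem_erase.1 x.2).1),
      (HasLines.mkLine_ax (show (x : P) ≠ h from (mem_erase.1 x.2).1)).2⟩
  have hφ1 : ∀ x, (x : P) ∈ (φ x : L) := fun x =>
    (HasLines.mkLine_ax (show (x : P) ≠ h from (mem_erase.1 x.2).1)).1
  have hφ2 : ∀ x, h ∈ (φ x : L) := fun x => (φ x).2
  have hinj : Function.Injective φ := by
    intro x y hxy
    have h1 := hφ1 x
    have h2 := hφ1 y
    rw [hxy] at h1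
    have h3 := hH.2 (φ y) x (mem_erase.1 x.2).2 y (mem_erase.1 y.2).2 h hh h1 h2 (hφ2 y)
    rcases h3 with h3 | h3 | h3
    · exact Subtype.ext h3
    · exact absurd h3 (mem_erase.1 x.2).1
    · exact absurd h3 (mem_erase.1 y.2).1
  have hcard : Fintype.card {x // x ∈ H.erase h} = Fintype.card {l : L // h ∈ l} := by
    have h1 : lineCount L h = ProjectivePlane.order P L + 1 := ProjectivePlane.lineCount_eq L h
    rw [lineCount, Nat.card_eq_fintype_card] at h1
    rw [h1, Fintype.card_coe, card_erase_of_mem hh, hH.1]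
    rfl
  have hbij := (Fintype.bijective_iff_injective_and_card φ).2 ⟨hinj, hcard⟩
  obtain ⟨x, hx⟩ := hbij.2 ⟨l, hl⟩
  refine ⟨x, (mem_erase.1 x.2).2, (mem_erase.1 x.2).1, ?_⟩
  have h1 := hφ1 x
  rw [hx] at h1
  exact h1

/-- the point `p` lies on a line through two distinct points of `S` -/
def Sec (L : Type) [Membership P L] (S : Finset P) (p : P) : Prop :=
  ∃ l : L, p ∈ l ∧ ∃ a ∈ S, ∃ b ∈ S, a ≠ b ∧ a ∈ l ∧ b ∈ l

omit [Fintype P] [Fintype L] in
/-- a hyperoval is determined by a subset whose secants cover the complement -/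
lemma mem_iff_of_cover {H S : Finset P} (hH : IsHyperoval P L H) (hS : S ⊆ H)
    (hcov : ∀ p, p ∉ H → Sec L S p) (p : P) : p ∈ H ↔ (p ∈ S ∨ ¬ Sec L S p) := by
  constructor
  · intro hp
    by_cases hpS : p ∈ S
    · exact Or.inl hpS
    · right
      rintro ⟨l, hpl, a, ha, b, hb, hab, hal, hbl⟩
      rcases hH.2 l p hp a (hS ha) b (hS hb) hpl hal hbl with h | h | h
      · exact hpS (h ▸ ha)
      · exact hpS (h ▸ hb)
      · exact hab h
  · rintro (h | h)
    · exact hS h
    · by_contra hp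
      exact h (hcov p hp)

/-- a small subset whose secants cover the complement of the hyperoval -/
lemma exists_cover {H : Finset P} (hH : IsHyperoval P L H) {m : ℕ} (hm : m ≤ (ProjectivePlane.order P L) + 2)
    (hnum : ((ProjectivePlane.order P L) ^ 2 - 1) * ((ProjectivePlane.order P L) + 2 - m) ^ m < ((ProjectivePlane.order P L) + 2) ^ m) :
    ∃ A B : Fin m → P, (∀ i, A i ∈ H) ∧ (∀ i, B i ∈ H) ∧
      ∀ p, p ∉ H → Sec L (univ.image A ∪ univ.image B) p := by
  classical
  obtain ⟨A0, hA0, hA0c⟩ := exists_subset_card_eq (s := H) (n := m) (by rw [hH.1]; exact hm)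
  -- enumeration of `A0`
  let eA : Fin m ≃ {x // x ∈ A0} := (Fintype.equivFinOfCardEq (by rw [Fintype.card_coe, hA0c])).symm
  let A : Fin m → P := fun i => eA i
  have hA : univ.image A = A0 := by
    ext x
    simp only [mem_image, mem_univ, true_and, A]
    constructor
    · rintro ⟨i, rfl⟩
      exact (eA i).2
    · intro hx
      exact ⟨eA.symm ⟨x, hx⟩, by simp⟩
  -- the partner of a point of `H` on the line joining it to `p`
  have hpart : ∀ p, p ∉ H → ∀ h, h ∈ H → ∃ h' ∈ H, h' ≠ h ∧ ∃ l : L, p ∈ l ∧ h ∈ l ∧ h' ∈ l := by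
    intro p hp h hh
    have hne : p ≠ h := fun e => hp (e ▸ hh)
    obtain ⟨h', h1, h2, h3⟩ := exists_other hH hh (HasLines.mkLine_ax (L := L) hne).2
    exact ⟨h', h1, h2, _, (HasLines.mkLine_ax (L := L) hne).1, (HasLines.mkLine_ax hne).2, h3⟩
  choose! τ hτH hτne hτl using hpart
  have hτinj : ∀ p, p ∉ H → Set.InjOn (τ p) (H : Set P) := by
    intro p hp a ha b hb hab
    obtain ⟨l, h1, h2, h3⟩ := hτl p hp a ha
    obtain ⟨l', h1', h2', h3'⟩ := hτl p hp b hb
    rw [← hab] at h3'
    have hne : p ≠ τ p a := fun e => hp (by rw [e]; exact hτH p hp a ha)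
    have hl : l = l' := (Nondegenerate.eq_or_eq h1 h3 h1' h3').resolve_left hne
    rw [← hl] at h2'
    rcases hH.2 l a ha b hb (τ p a) (hτH p hp a ha) h2 h2' h3 with h | h | h
    · exact h
    · exact absurd h.symm (hτne p hp a ha)
    · rw [hab] at h
      exact absurd h.symm (hτne p hp b hb)
  -- counting
  by_contra hcon
  push Not at hcon
  have hbad : ∀ B ∈ Fintype.piFinset (fun _ : Fin m => H), ∃ p, p ∉ H ∧
      ∀ i, B i ∈ H \ A0.image (τ p) := by
    intro B hB
    rw [Fintype.mem_piFinset] at hB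
    have hAH : ∀ i, A i ∈ H := fun i => hA0 (eA i).2
    obtain ⟨p, hp, hsec⟩ := hcon A B hAH hB
    refine ⟨p, hp, fun i => ?_⟩
    rw [mem_sdiff]
    refine ⟨hB i, fun hi => hsec ?_⟩
    rw [mem_image] at hi
    obtain ⟨a, ha, hai⟩ := hi
    obtain ⟨l, h1, h2, h3⟩ := hτl p hp a (hA0 ha)
    refine ⟨l, h1, a, ?_, B i, ?_, ?_, h2, ?_⟩
    · rw [mem_union, hA]; exact Or.inl ha
    · rw [mem_union]; exact Or.inr (mem_image_of_mem _ (mem_univ i))
    · rw [← hai]; exact (hτne p hp a (hA0 ha)).symm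
    · rw [← hai]; exact h3
  have hcover : Fintype.piFinset (fun _ : Fin m => H) ⊆
      (univ \ H).biUnion fun p => Fintype.piFinset fun _ : Fin m => H \ A0.image (τ p) := by
    intro B hB
    obtain ⟨p, hp, h⟩ := hbad B hB
    rw [mem_biUnion]
    refine ⟨p, by simp [hp], ?_⟩
    rw [Fintype.mem_piFinset]
    exact h
  have h1 := card_le_card hcover
  have h2 : ((univ \ H).biUnion fun p =>
      Fintype.piFinset fun _ : Fin m => H \ A0.image (τ p)).card ≤
      ((ProjectivePlane.order P L) ^ 2 - 1) * ((ProjectivePlane.order P L) + 2 - m) ^ m := by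
    refine card_biUnion_le.trans ?_
    have h3 : ∀ p ∈ univ \ H, (Fintype.piFinset fun _ : Fin m => H \ A0.image (τ p)).card =
        ((ProjectivePlane.order P L) + 2 - m) ^ m := by
      intro p hp
      have hp' : p ∉ H := by simpa using hp
      rw [Fintype.card_piFinset, prod_const, card_univ, Fintype.card_fin]
      congr 1
      have h4 : A0.image (τ p) ⊆ H := by
        intro x hx
        rw [mem_image] at hx
        obtain ⟨a, ha, rfl⟩ := hx
        exact hτH p hp' a (hA0 ha)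
      rw [card_sdiff_of_subset h4, hH.1, card_image_of_injOn, hA0c]
      exact (hτinj p hp').mono (by exact_mod_cast hA0)
    rw [sum_congr rfl h3, sum_const, smul_eq_mul, card_sdiff_of_subset (subset_univ H), card_univ,
      ProjectivePlane.card_points P L, hH.1]
    apply le_of_eq
    congr 1
    have : (ProjectivePlane.order P L) ^ 2 + (ProjectivePlane.order P L) + 1 - ((ProjectivePlane.order P L) + 2) = (ProjectivePlane.order P L) ^ 2 - 1 := by omega
    exact this
  rw [Fintype.card_piFinset, prod_const, card_univ, Fintype.card_fin, hH.1] at h1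
  omega

/-- the numerical condition -/
lemma num_ok {q m : ℕ} (hq : 2 ≤ q) (hm : m ≤ q + 2)
    (hm2 : 2 * ((q : ℝ) + 2) * Real.log q ≤ (m : ℝ) ^ 2) :
    (q ^ 2 - 1) * (q + 2 - m) ^ m < (q + 2) ^ m := by
  have hq0 : (0 : ℝ) < q := by positivity
  have hN : (0 : ℝ) < (q : ℝ) + 2 := by positivity
  have h1 : ((q + 2 - m : ℕ) : ℝ) ≤ ((q : ℝ) + 2) * Real.exp (-(m / ((q : ℝ) + 2))) := by
    rw [Nat.cast_sub hm]
    have h2 := Real.add_one_le_exp (-((m : ℝ) / ((q : ℝ) + 2)))
    have h3 : ((q : ℝ) + 2) * (-((m : ℝ) / ((q : ℝ) + 2)) + 1) = (q : ℝ) + 2 - m := by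
      field_simp
      ring
    push_cast
    rw [← h3]
    exact mul_le_mul_of_nonneg_left h2 hN.le
  have h4 : ((q + 2 - m : ℕ) : ℝ) ^ m ≤ ((q : ℝ) + 2) ^ m * Real.exp (-(2 * Real.log q)) := by
    calc ((q + 2 - m : ℕ) : ℝ) ^ m ≤ (((q : ℝ) + 2) * Real.exp (-(m / ((q : ℝ) + 2)))) ^ m :=
          pow_le_pow_left₀ (Nat.cast_nonneg _) h1 m
      _ = ((q : ℝ) + 2) ^ m * Real.exp (m * (-(m / ((q : ℝ) + 2)))) := by
          rw [mul_pow, ← Real.exp_nat_mul]
      _ ≤ ((q : ℝ) + 2) ^ m * Real.exp (-(2 * Real.log q)) := by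
          apply mul_le_mul_of_nonneg_left _ (by positivity)
          apply Real.exp_le_exp.2
          have h5 : (m : ℝ) * (-(m / ((q : ℝ) + 2))) = -((m : ℝ) ^ 2 / ((q : ℝ) + 2)) := by ring
          rw [h5]
          apply neg_le_neg
          rw [le_div_iff₀ hN]
          linarith
  have h6 : Real.exp (-(2 * Real.log q)) = ((q : ℝ) ^ 2)⁻¹ := by
    rw [Real.exp_neg, two_mul, Real.exp_add, Real.exp_log hq0, pow_two]
  rw [h6] at h4
  have h7 : (((q ^ 2 - 1) * (q + 2 - m) ^ m : ℕ) : ℝ) < (((q + 2) ^ m : ℕ) : ℝ) := by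
    have h8 : ((q ^ 2 - 1 : ℕ) : ℝ) = (q : ℝ) ^ 2 - 1 := by
      rw [Nat.cast_sub (Nat.one_le_pow _ _ (by omega))]
      push_cast
      ring
    rw [Nat.cast_mul, Nat.cast_pow, h8]
    push_cast
    calc ((q : ℝ) ^ 2 - 1) * ((q + 2 - m : ℕ) : ℝ) ^ m
        ≤ ((q : ℝ) ^ 2 - 1) * (((q : ℝ) + 2) ^ m * ((q : ℝ) ^ 2)⁻¹) := by
          apply mul_le_mul_of_nonneg_left h4
          have : (1 : ℝ) ≤ (q : ℝ) ^ 2 := by
            have : (2 : ℝ) ≤ q := by exact_mod_cast hq
            nlinarith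
          linarith
      _ < ((q : ℝ) + 2) ^ m := by
          have h9 : (0 : ℝ) < ((q : ℝ) + 2) ^ m := by positivity
          have h10 : ((q : ℝ) ^ 2 - 1) * (((q : ℝ) + 2) ^ m * ((q : ℝ) ^ 2)⁻¹) =
              ((q : ℝ) + 2) ^ m * (1 - ((q : ℝ) ^ 2)⁻¹) := by
            field_simp
          rw [h10]
          have h11 : (0 : ℝ) < ((q : ℝ) ^ 2)⁻¹ := by positivity
          nlinarith
  exact_mod_cast h7

/-- the size of the two parts -/
noncomputable def mm (q : ℕ) : ℕ := ⌈Real.sqrt (2 * ((q : ℝ) + 2) * Real.log q)⌉₊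

lemma mm_le {q : ℕ} (hq : 2 ≤ q) : mm q ≤ q + 2 := by
  unfold mm
  rw [Nat.ceil_le]
  have hq0 : (0 : ℝ) < q := by positivity
  have h1 : Real.log q ≤ (q : ℝ) / 2 + 1 := by
    have h2 := Real.log_le_sub_one_of_pos (show (0 : ℝ) < (q : ℝ) / 2 by positivity)
    rw [Real.log_div (by positivity) (by norm_num)] at h2
    have h3 : Real.log 2 ≤ 1 := by
      have := Real.log_two_lt_d9
      linarith
    linarith
  push_cast
  apply Real.sqrt_le_iff.2
  constructor
  · positivity
  · have h4 : 2 * ((q : ℝ) + 2) * Real.log q ≤ 2 * ((q : ℝ) + 2) * ((q : ℝ) / 2 + 1) :=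
      mul_le_mul_of_nonneg_left h1 (by positivity)
    nlinarith

lemma mm_sq (q : ℕ) : 2 * ((q : ℝ) + 2) * Real.log q ≤ (mm q : ℝ) ^ 2 := by
  have h0 : 0 ≤ 2 * ((q : ℝ) + 2) * Real.log q := by
    have := Real.log_natCast_nonneg q
    positivity
  have h1 : Real.sqrt (2 * ((q : ℝ) + 2) * Real.log q) ≤ mm q := Nat.le_ceil _
  calc 2 * ((q : ℝ) + 2) * Real.log q = Real.sqrt (2 * ((q : ℝ) + 2) * Real.log q) ^ 2 :=
        (Real.sq_sqrt h0).symm
    _ ≤ (mm q : ℝ) ^ 2 := pow_le_pow_left₀ (Real.sqrt_nonneg _) h1 2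

/-- every hyperoval has a small subset contained in no other hyperoval -/
theorem small_determining {H : Finset P} (hH : IsHyperoval P L H) :
    ∃ A B : Fin (mm (ProjectivePlane.order P L)) → P, ∀ p, p ∈ H ↔ (p ∈ univ.image A ∪ univ.image B ∨
      ¬ Sec L (univ.image A ∪ univ.image B) p) := by
  classical
  have hq : 2 ≤ ProjectivePlane.order P L := ProjectivePlane.one_lt_order P L
  obtain ⟨A, B, hA, hB, hcov⟩ := exists_cover hH (mm_le hq) (num_ok hq (mm_le hq) (mm_sq _))
  refine ⟨A, B, mem_iff_of_cover hH ?_ hcov⟩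
  intro x hx
  rw [mem_union, mem_image, mem_image] at hx
  rcases hx with ⟨i, _, rfl⟩ | ⟨i, _, rfl⟩
  · exact hA i
  · exact hB i

/-- every hyperoval has a small subset all of whose completions to an arc lie inside it -/
theorem small_complete {H : Finset P} (hH : IsHyperoval P L H) :
    ∃ S ⊆ H, S.card ≤ 2 * mm (ProjectivePlane.order P L) ∧ ∀ A : Finset P, IsArc P L A → S ⊆ A → A ⊆ H := by
  classical
  have hq : 2 ≤ ProjectivePlane.order P L := ProjectivePlane.one_lt_order P L
  obtain ⟨A, B, hA, hB, hcov⟩ := exists_cover hH (mm_le hq) (num_ok hq (mm_le hq) (mm_sq _))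
  refine ⟨univ.image A ∪ univ.image B, ?_, ?_, ?_⟩
  · intro x hx
    rw [mem_union, mem_image, mem_image] at hx
    rcases hx with ⟨i, _, rfl⟩ | ⟨i, _, rfl⟩
    · exact hA i
    · exact hB i
  · have h1 : (univ.image A).card ≤ mm (ProjectivePlane.order P L) := by
      refine card_image_le.trans ?_
      rw [card_univ, Fintype.card_fin]
    have h2 : (univ.image B).card ≤ mm (ProjectivePlane.order P L) := by
      refine card_image_le.trans ?_
      rw [card_univ, Fintype.card_fin]
    have h3 := card_union_le (univ.image A) (univ.image B)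
    omega
  · intro C hC hSC p hp
    by_contra hpH
    obtain ⟨l, hpl, a, ha, b, hb, hab, hal, hbl⟩ := hcov p hpH
    rcases hC l p hp a (hSC ha) b (hSC hb) hpl hal hbl with h | h | h
    · have : p ∈ H := by
        rw [h]
        rw [mem_union, mem_image, mem_image] at ha
        rcases ha with ⟨i, _, rfl⟩ | ⟨i, _, rfl⟩
        · exact hA i
        · exact hB i
      exact hpH this
    · have : p ∈ H := by
        rw [h]
        rw [mem_union, mem_image, mem_image] at hb
        rcases hb with ⟨i, _, rfl⟩ | ⟨i, _, rfl⟩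
        · exact hA i
        · exact hB i
      exact hpH this
    · exact hab h

theorem card_hyperovals_le (𝒞 : Finset (Finset P)) (h𝒞 : ∀ H ∈ 𝒞, IsHyperoval P L H) :
    𝒞.card ≤ ((ProjectivePlane.order P L) ^ 2 + (ProjectivePlane.order P L) + 1) ^ (2 * mm (ProjectivePlane.order P L)) := by
  classical
  have h1 : ∀ H : {H // H ∈ 𝒞}, ∃ AB : (Fin (mm (ProjectivePlane.order P L)) → P) × (Fin (mm (ProjectivePlane.order P L)) → P),
      ∀ p, p ∈ (H : Finset P) ↔ (p ∈ univ.image AB.1 ∪ univ.image AB.2 ∨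
        ¬ Sec L (univ.image AB.1 ∪ univ.image AB.2) p) := by
    intro H
    obtain ⟨A, B, h⟩ := small_determining (h𝒞 H H.2)
    exact ⟨(A, B), h⟩
  choose F hF using h1
  have hinj : Function.Injective F := by
    intro H H' h
    apply Subtype.ext
    ext p
    rw [hF H p, hF H' p, h]
  have h2 := Fintype.card_le_of_injective F hinj
  rw [Fintype.card_coe, Fintype.card_prod, Fintype.card_fun, Fintype.card_fin,
    ProjectivePlane.card_points P L, ← pow_add, ← two_mul] at h2
  exact h2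

end Pool.Agent.H46.Hyp
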