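import Mathlib
import Pool.Agent.H46.Hyp.Count

open Configuration Finset

namespace Pool.Agent.H46.Hyp

lemma mm_le_three {q : ℕ} (hq : 2 ≤ q) : (mm q : ℝ) ≤ 3 * Real.sqrt (q * Real.log q) := by
  have hq0 : (2 : ℝ) ≤ q := by exact_mod_cast hq
  have hlog : 0.69 ≤ Real.log q := by
    have h1 : Real.log 2 ≤ Real.log q := Real.log_le_log (by norm_num) hq0
    have := Real.log_two_gt_d9
    linarith
  have h1 : (mm q : ℝ) ≤ Real.sqrt (2 * ((q : ℝ) + 2) * Real.log q) + 1 :=
    (Nat.ceil_lt_add_one (Real.sqrt_nonneg _)).le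
  have h2 : Real.sqrt (2 * ((q : ℝ) + 2) * Real.log q) ≤ 2 * Real.sqrt (q * Real.log q) := by
    have h3 : 2 * Real.sqrt (q * Real.log q) = Real.sqrt (2 ^ 2 * (q * Real.log q)) := by
      rw [Real.sqrt_mul (show (0 : ℝ) ≤ 2 ^ 2 by norm_num),
        Real.sqrt_sq (show (0 : ℝ) ≤ 2 by norm_num)]
    rw [h3]
    apply Real.sqrt_le_sqrt
    nlinarith
  have h4 : 1 ≤ Real.sqrt (q * Real.log q) := by
    rw [Real.one_le_sqrt]
    nlinarith
  linarith

lemma log_le_three {q : ℕ} (hq : 2 ≤ q) :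
    Real.log ((q ^ 2 + q + 1 : ℕ) : ℝ) ≤ 3 * Real.log q := by
  have h1 : ((q ^ 2 + q + 1 : ℕ) : ℝ) ≤ (q : ℝ) ^ 3 := by
    have : q ^ 2 + q + 1 ≤ q ^ 3 := by nlinarith [Nat.pow_le_pow_left hq 2]
    exact_mod_cast this
  have h2 : 3 * Real.log q = Real.log ((q : ℝ) ^ 3) := by
    rw [Real.log_pow]
    norm_num
  rw [h2]
  exact Real.log_le_log (by positivity) h1

lemma pow_le_exp {q : ℕ} (hq : 2 ≤ q) : (((q ^ 2 + q + 1) ^ (2 * mm q) : ℕ) : ℝ) ≤
    Real.exp (18 * Real.sqrt q * Real.log q ^ (3 / 2 : ℝ)) := by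
  have hq0 : (2 : ℝ) ≤ q := by exact_mod_cast hq
  have hlog : 0 ≤ Real.log q := Real.log_nonneg (by linarith)
  have h0 : (0 : ℝ) < ((q ^ 2 + q + 1 : ℕ) : ℝ) := by positivity
  rw [Nat.cast_pow, ← Real.exp_log (pow_pos h0 _)]
  apply Real.exp_le_exp.2
  rw [Real.log_pow]
  push_cast
  have h1 := mm_le_three hq
  have h2 := log_le_three hq
  push_cast at h2
  have h3 : Real.log q ^ (3 / 2 : ℝ) = Real.sqrt (Real.log q) * Real.log q := by
    rw [show (3 / 2 : ℝ) = 1 / 2 + 1 by norm_num, Real.rpow_add_one' hlog (by norm_num),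
      Real.sqrt_eq_rpow]
  have h4 : Real.sqrt (q * Real.log q) = Real.sqrt q * Real.sqrt (Real.log q) :=
    Real.sqrt_mul (by positivity) _
  rw [h3]
  rw [h4] at h1
  have h5 : 0 ≤ Real.log ((q : ℝ) ^ 2 + q + 1) := Real.log_nonneg (by nlinarith)
  calc 2 * (mm q : ℝ) * Real.log ((q : ℝ) ^ 2 + q + 1)
      ≤ 2 * (3 * (Real.sqrt q * Real.sqrt (Real.log q))) * (3 * Real.log q) := by
        apply mul_le_mul _ h2 h5 (by positivity)
        linarith
    _ = 18 * Real.sqrt q * (Real.sqrt (Real.log q) * Real.log q) := by ring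

section

variable (P L : Type) [Membership P L] [ProjectivePlane P L] [Fintype P] [Fintype L]

/-- the number of hyperovals of a finite projective plane of order `q` -/
theorem ncard_hyperovals_le : ({H : Finset P | IsHyperoval P L H}.ncard : ℝ) ≤
    Real.exp (18 * Real.sqrt (ProjectivePlane.order P L : ℕ) * Real.log (ProjectivePlane.order P L : ℕ) ^ (3 / 2 : ℝ)) := by
  classical
  have h1 := card_hyperovals_le (P := P) (L := L)
    (univ.filter fun H : Finset P => IsHyperoval P L H) (by simp)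
  have h2 : {H : Finset P | IsHyperoval P L H}.ncard =
      (univ.filter fun H : Finset P => IsHyperoval P L H).card := by
    rw [← Set.ncard_coe_finset]
    congr 1
    ext H
    simp
  rw [h2]
  have h3 := pow_le_exp (show 2 ≤ ProjectivePlane.order P L from ProjectivePlane.one_lt_order P L)
  exact le_trans (by exact_mod_cast h1) h3

end

section field

open scoped LinearAlgebra.Projectivization

variable (K : Type) [Field K] [Fintype K] [DecidableEq K]

lemma order_eq : ProjectivePlane.order (ℙ K (Fin 3 → K)) (ℙ K (Fin 3 → K)) = Fintype.card K := by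
  classical
  have := Fintype.ofFinite (ℙ K (Fin 3 → K))
  have h1 := ProjectivePlane.card_points (ℙ K (Fin 3 → K)) (ℙ K (Fin 3 → K))
  have h2 := Projectivization.card_of_finrank K (Fin 3 → K) (n := 3) (by simp)
  rw [← Nat.card_eq_fintype_card, h2] at h1
  simp only [sum_range_succ, sum_range_zero, pow_zero, pow_one, zero_add,
    Nat.card_eq_fintype_card] at h1
  nlinarith [h1]

/-- the set `{(f(c) : c : 1) : c ∈ K} ∪ {(1 : 0 : 0), (0 : 1 : 0)}` attached to `f : K → K` -/
noncomputable def oSet (f : K → K) : Finset (ℙ K (Fin 3 → K)) := by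
  classical
  exact (univ.image fun c : K => Projectivization.mk K (![f c, c, 1] : Fin 3 → K)
      (fun h => one_ne_zero (congrFun h 2))) ∪
    {Projectivization.mk K (![1, 0, 0] : Fin 3 → K) (fun h => one_ne_zero (congrFun h 0)),
     Projectivization.mk K (![0, 1, 0] : Fin 3 → K) (fun h => one_ne_zero (congrFun h 1))}

omit [DecidableEq K] in
lemma oSet_injective : Function.Injective (oSet K) := by
  classical
  intro f g hfg
  funext c
  have h1 : Projectivization.mk K (![f c, c, 1] : Fin 3 → K)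
      (fun h => one_ne_zero (congrFun h 2)) ∈ oSet K g := by
    rw [← hfg, oSet, mem_union, mem_image]
    exact Or.inl ⟨c, mem_univ c, rfl⟩
  rw [oSet, mem_union, mem_image, mem_insert, mem_singleton] at h1
  rcases h1 with ⟨d, _, h⟩ | h | h
  · rw [Projectivization.mk_eq_mk_iff'] at h
    obtain ⟨a, ha⟩ := h
    have h2 := congrFun ha 2
    have h1 := congrFun ha 1
    have h0 := congrFun ha 0
    simp at h0 h1 h2
    rw [h2] at h0 h1
    simp only [one_mul] at h0 h1
    rw [h0, h1]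
  · rw [Projectivization.mk_eq_mk_iff'] at h
    obtain ⟨a, ha⟩ := h
    have h2 := congrFun ha 2
    simp at h2
  · rw [Projectivization.mk_eq_mk_iff'] at h
    obtain ⟨a, ha⟩ := h
    have h2 := congrFun ha 2
    simp at h2

/-- the number of o-polynomials -/
theorem ncard_oPoly_le :
    ({f : K → K | IsHyperoval (ℙ K (Fin 3 → K)) (ℙ K (Fin 3 → K)) (oSet K f)}.ncard : ℝ) ≤
    Real.exp (18 * Real.sqrt (Fintype.card K) * Real.log (Fintype.card K) ^ (3 / 2 : ℝ)) := by
  classical
  have := Fintype.ofFinite (ℙ K (Fin 3 → K))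
  have h1 := ncard_hyperovals_le (ℙ K (Fin 3 → K)) (ℙ K (Fin 3 → K))
  rw [order_eq] at h1
  refine le_trans ?_ h1
  have h2 : {f : K → K | IsHyperoval (ℙ K (Fin 3 → K)) (ℙ K (Fin 3 → K)) (oSet K f)}.ncard ≤
      {H : Finset (ℙ K (Fin 3 → K)) | IsHyperoval (ℙ K (Fin 3 → K)) (ℙ K (Fin 3 → K)) H}.ncard := by
    apply Set.ncard_le_ncard_of_injOn (oSet K)
    · intro f hf
      exact hf
    · exact (oSet_injective K).injOn
  exact_mod_cast h2

end field

end Pool.Agent.H46.Hyp
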